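import Pool.Agent.Helper68.QC.St1

/-!
# PART M: module BRG (from the torus to the plane)
-/

open MeasureTheory Set Filter Topology Complex
open scoped ContDiff ComplexConjugate ENNReal

namespace Pool.Agent.Helper32.QC

open Pool.Agent.Helper68.QC

/-- the explicit map -/
private noncomputable def wB (L : ℝ) (κ : ℂ) (Φ : ℝ × ℝ → ℂ) (z : ℂ) : ℂ :=
  z + κ * conj z + L * Φ (z.re / L, z.im / L)

/-- scaling -/
private noncomputable def pB (L : ℝ) : ℂ →L[ℝ] ℝ × ℝ :=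
  (L⁻¹ • Complex.reCLM).prod (L⁻¹ • Complex.imCLM)

private theorem pB_apply (L : ℝ) (z : ℂ) : pB L z = (z.re / L, z.im / L) := by
  simp [pB, div_eq_inv_mul]

private theorem wB_smooth (L : ℝ) (κ : ℂ) {Φ : ℝ × ℝ → ℂ} (hΦ : KB.SP Φ) :
    ContDiff ℝ ∞ (wB L κ Φ) := by
  have h1 : ContDiff ℝ ∞ fun z : ℂ => Φ (z.re / L, z.im / L) := by
    have h2 : (fun z : ℂ => Φ (z.re / L, z.im / L)) = fun z => Φ (pB L z) := by
      funext z
      rw [pB_apply]
    rw [h2]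
    exact hΦ.smooth.comp (pB L).contDiff
  have h3 : ContDiff ℝ ∞ fun z : ℂ => conj z := Complex.conjCLE.contDiff
  unfold wB
  exact (contDiff_id.add (contDiff_const.mul h3)).add (contDiff_const.mul h1)

private theorem wB_has {L : ℝ} (hL : 0 < L) (κ : ℂ) {Φ : ℝ × ℝ → ℂ} (hΦ : KB.SP Φ) (z : ℂ) :
    HasFDerivAt (wB L κ Φ) (lin (1 + KB.dz Φ (z.re / L, z.im / L))
      (κ + KB.dzb Φ (z.re / L, z.im / L))) z := by
  have h1 : HasFDerivAt (fun z : ℂ => Φ (z.re / L, z.im / L))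
      ((fderiv ℝ Φ (pB L z)).comp (pB L)) z := by
    have h2 : (fun z : ℂ => Φ (z.re / L, z.im / L)) = fun z => Φ (pB L z) := by
      funext z
      rw [pB_apply]
    rw [h2]
    exact (hΦ.differentiable (pB L z)).hasFDerivAt.comp z (pB L).hasFDerivAt
  have h3 := (hasFDerivAt_id (𝕜 := ℝ) z).add
    ((Complex.conjCLE : ℂ →L[ℝ] ℂ).hasFDerivAt.const_mul κ)
  have h4 := h3.add (h1.const_mul (L : ℂ))
  have h5 : HasFDerivAt (wB L κ Φ) _ z := h4
  refine h5.congr_fderiv (ContinuousLinearMap.ext fun v => ?_)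
  have hL0 : (L : ℂ) ≠ 0 := by exact_mod_cast hL.ne'
  have e : fderiv ℝ Φ (pB L z) (pB L v) =
      ((v.re / L : ℝ) : ℂ) * KB.D1 Φ (z.re / L, z.im / L) +
      ((v.im / L : ℝ) : ℂ) * KB.D2 Φ (z.re / L, z.im / L) := by
    have h6 : pB L v = (v.re / L) • ((1 : ℝ), (0 : ℝ)) + (v.im / L) • ((0 : ℝ), (1 : ℝ)) := by
      rw [pB_apply]
      ext <;> simp
    rw [h6, map_add, map_smul, map_smul, pB_apply]
    simp [KB.D1, KB.D2, KB.D]
  have h9 : v + conj v = 2 * (v.re : ℂ) := by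
    apply Complex.ext <;> simp
    ring
  have h10 : v - conj v = 2 * (v.im : ℂ) * I := by
    apply Complex.ext <;> simp
    ring
  have h11 : ((L : ℂ) * (((v.re / L : ℝ) : ℂ) * KB.D1 Φ (z.re / L, z.im / L) +
      ((v.im / L : ℝ) : ℂ) * KB.D2 Φ (z.re / L, z.im / L))) =
      (v.re : ℂ) * KB.D1 Φ (z.re / L, z.im / L) + (v.im : ℂ) * KB.D2 Φ (z.re / L, z.im / L) := by
    push_cast
    field_simp
  show v + κ * conj v + (L : ℂ) * fderiv ℝ Φ (pB L z) (pB L v) = _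
  rw [e, h11, lin_apply, KB.dz, KB.dzb]
  linear_combination (-(KB.D1 Φ (z.re / L, z.im / L)) / 2) * h9 +
    (I * KB.D2 Φ (z.re / L, z.im / L) / 2) * h10 +
    ((v.im : ℂ) * KB.D2 Φ (z.re / L, z.im / L)) * Complex.I_sq

/-- bijectivity and homeomorphism, for a map with invertible derivatives -/
private theorem lin_equiv {p q : ℂ} (h : ‖q‖ < ‖p‖) :
    ∃ A : ℂ ≃L[ℝ] ℂ, (lin p q : ℂ →L[ℝ] ℂ) = (A : ℂ →L[ℝ] ℂ) := by
  have hinj : Function.Injective (lin p q) := by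
    rw [injective_iff_map_eq_zero]
    intro v hv
    rw [lin_apply] at hv
    have h1 : p * v = -(q * conj v) := by linear_combination hv
    have h2 : ‖p‖ * ‖v‖ = ‖q‖ * ‖v‖ := by
      rw [← norm_mul, h1, norm_neg, norm_mul, RCLike.norm_conj]
    by_contra hne
    have h3 : 0 < ‖v‖ := norm_pos_iff.2 hne
    nlinarith
  let e0 : ℂ ≃ₗ[ℝ] ℂ := LinearEquiv.ofInjectiveEndo (lin p q : ℂ →ₗ[ℝ] ℂ) hinj
  refine ⟨e0.toContinuousLinearEquiv, ?_⟩
  ext
  rfl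

private theorem norm_le_two (z : ℂ) : ‖z‖ ≤ 2 * ‖Complex.equivRealProdCLM z‖ := by
  have h1 := Complex.norm_le_abs_re_add_abs_im z
  have h2 : |z.re| ≤ ‖Complex.equivRealProdCLM z‖ := norm_fst_le (Complex.equivRealProdCLM z)
  have h3 : |z.im| ≤ ‖Complex.equivRealProdCLM z‖ := norm_snd_le (Complex.equivRealProdCLM z)
  linarith

private theorem le_norm' (z : ℂ) : ‖Complex.equivRealProdCLM z‖ ≤ ‖z‖ := by
  rw [Prod.norm_def]
  exact max_le (Complex.abs_re_le_norm z) (Complex.abs_im_le_norm z)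

private theorem homeo_of {w : ℂ → ℂ} (hw : ContDiff ℝ ∞ w)
    (hd : ∀ z, ∃ A : ℂ ≃L[ℝ] ℂ, fderiv ℝ w z = (A : ℂ →L[ℝ] ℂ))
    (hp : ∀ R : ℝ, ∃ R' : ℝ, ∀ z, ‖w z‖ ≤ R → ‖z‖ ≤ R') : ∃ W : ℂ ≃ₜ ℂ, ∀ z, W z = w z := by
  set e : ℂ ≃L[ℝ] ℝ × ℝ := Complex.equivRealProdCLM with he
  set T : ℝ × ℝ → ℝ × ℝ := fun p => e (w (e.symm p)) with hT
  have hTs : ContDiff ℝ 1 T :=
    (e.contDiff.comp (hw.comp e.symm.contDiff)).of_le (by simp)
  have hTd : ∀ p, ∃ e' : (ℝ × ℝ) ≃L[ℝ] (ℝ × ℝ), fderiv ℝ T p = (e' : ℝ × ℝ →L[ℝ] ℝ × ℝ) := by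
    intro p
    obtain ⟨A, hA⟩ := hd (e.symm p)
    refine ⟨(e.symm.trans A).trans e, ?_⟩
    have h1 : HasFDerivAt w (A : ℂ →L[ℝ] ℂ) (e.symm p) := by
      rw [← hA]
      exact (hw.differentiable (by simp) _).hasFDerivAt
    have h2 := h1.comp p (e.symm : ℝ × ℝ →L[ℝ] ℂ).hasFDerivAt
    have h3 : HasFDerivAt T _ p := (e : ℂ →L[ℝ] ℝ × ℝ).hasFDerivAt.comp p h2
    rw [h3.fderiv]
    ext <;> rfl
  have hTp : ∀ R : ℝ, ∃ R' : ℝ, ∀ p, ‖T p‖ ≤ R → ‖p‖ ≤ R' := by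
    intro R
    obtain ⟨R', hR'⟩ := hp (2 * R)
    refine ⟨R', fun p hpR => ?_⟩
    have h1 := norm_le_two (w (e.symm p))
    have h2 : ‖Complex.equivRealProdCLM (w (e.symm p))‖ ≤ R := hpR
    have h3 := hR' (e.symm p) (by linarith)
    have h4 := le_norm' (e.symm p)
    rw [← he, e.apply_symm_apply] at h4
    linarith
  have hb := KB.bijective_of_proper_local hTs hTd hTp
  have hl := KB.isLocalHomeomorph_of_deriv hTs hTd
  refine ⟨(e.toHomeomorph.trans (hl.toHomeomorphOfBijective hb)).trans e.symm.toHomeomorph,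
    fun z => ?_⟩
  show e.symm (e (w (e.symm (e z)))) = w z
  rw [e.symm_apply_apply, e.symm_apply_apply]

theorem pBRG : Pool.Agent.Helper68.QC.StBRG := by
  intro k hk0 hk1 L m Φ κ hL hΦ hm hκ heq hne
  have hs := wB_smooth L κ hΦ
  have hdd : ∀ z, dz (wB L κ Φ) z = 1 + KB.dz Φ (z.re / L, z.im / L) ∧
      dzb (wB L κ Φ) z = κ + KB.dzb Φ (z.re / L, z.im / L) := fun z => dz_of_has (wB_has hL κ hΦ z)
  have hbel : ∀ z, dzb (wB L κ Φ) z = m (z.re / L, z.im / L) * dz (wB L κ Φ) z := by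
    intro z
    rw [(hdd z).1, (hdd z).2, heq]
  have hne' : ∀ z, dz (wB L κ Φ) z ≠ 0 := by
    intro z
    rw [(hdd z).1]
    exact hne _
  have hle : ∀ z, ‖dzb (wB L κ Φ) z‖ ≤ k * ‖dz (wB L κ Φ) z‖ := by
    intro z
    rw [hbel, norm_mul]
    exact mul_le_mul_of_nonneg_right (hm _) (norm_nonneg _)
  obtain ⟨W, hW⟩ := homeo_of hs (fun z => by
    rw [fderiv_eq_lin]
    apply lin_equiv
    have h1 := hle z
    have h2 : 0 < ‖dz (wB L κ Φ) z‖ := norm_pos_iff.2 (hne' z)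
    nlinarith) (fun R => by
    obtain ⟨M, hM, hb⟩ := hΦ.bounded
    have h1 : 0 < 1 - k := by linarith
    refine ⟨(R + L * M) / (1 - k), fun z hz => ?_⟩
    rw [le_div_iff₀ h1]
    have h2 : ‖z‖ ≤ ‖wB L κ Φ z‖ + ‖κ * conj z + L * Φ (z.re / L, z.im / L)‖ := by
      have h3 : z = wB L κ Φ z - (κ * conj z + L * Φ (z.re / L, z.im / L)) := by
        unfold wB
        ring
      calc ‖z‖ = ‖wB L κ Φ z - (κ * conj z + L * Φ (z.re / L, z.im / L))‖ := by rw [← h3]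
        _ ≤ _ := norm_sub_le _ _
    have h4 : ‖κ * conj z + L * Φ (z.re / L, z.im / L)‖ ≤ k * ‖z‖ + L * M := by
      refine (norm_add_le _ _).trans (add_le_add ?_ ?_)
      · rw [norm_mul, RCLike.norm_conj]
        exact mul_le_mul_of_nonneg_right hκ (norm_nonneg _)
      · rw [norm_mul, Complex.norm_real, Real.norm_of_nonneg hL.le]
        exact mul_le_mul_of_nonneg_left (hb _) hL.le
    nlinarith)
  have hWf : (W : ℂ → ℂ) = wB L κ Φ := funext hW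
  refine ⟨W, fun z => hW z, ?_, fun z => ?_⟩
  · exact { smooth := by rw [hWf]; exact hs
            bij := W.bijective
            ne := by rw [hWf]; exact hne'
            le := by rw [hWf]; exact hle }
  · rw [hWf]
    exact hbel z

end Pool.Agent.Helper32.QC
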