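import Pool.Agent.Helper69.QC.St

/-!
# Project QD, part C: module CNA (a common short vector)
-/

open Complex MeasureTheory Set Filter Topology Metric
open scoped Real ComplexConjugate

namespace Pool.Agent.Helper32.QC

open Pool.Agent.Helper69.QC

/-- the normalised length -/
private noncomputable def nj (t θ : ℝ) (p q : ℤ) : ℝ :=
  Real.exp t * (p * Real.cos (θ / 2) + q * Real.sin (θ / 2)) ^ 2 +
    Real.exp (-t) * (q * Real.cos (θ / 2) - p * Real.sin (θ / 2)) ^ 2

private theorem nj_nonneg (t θ : ℝ) (p q : ℤ) : 0 ≤ nj t θ p q := by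
  unfold nj
  positivity

private theorem nj_mul (t θ : ℝ) (k p q : ℤ) : nj t θ (k * p) (k * q) = (k : ℝ) ^ 2 * nj t θ p q := by
  unfold nj
  push_cast
  ring

private theorem nj_le_mul (t θ : ℝ) {k : ℤ} (hk : k ≠ 0) (p q : ℤ) :
    nj t θ p q ≤ nj t θ (k * p) (k * q) := by
  rw [nj_mul]
  have h1 : (1 : ℤ) ≤ k ^ 2 := by
    have := sq_nonneg (|k| - 1)
    have h2 : 1 ≤ |k| := Int.one_le_abs hk
    nlinarith [sq_abs k]
  have h3 : (1 : ℝ) ≤ (k : ℝ) ^ 2 := by exact_mod_cast h1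
  nlinarith [nj_nonneg t θ p q]

private theorem nj_succ (t θ : ℝ) (p q : ℤ) : nj t θ p q ≤ Real.exp 1 * nj (t + 1) θ p q := by
  unfold nj
  have h1 : Real.exp 1 * Real.exp (t + 1) = Real.exp t * Real.exp 2 := by
    rw [← Real.exp_add, ← Real.exp_add]
    congr 1
    ring
  have h2 : Real.exp 1 * Real.exp (-(t + 1)) = Real.exp (-t) := by
    rw [← Real.exp_add]
    congr 1
    ring
  rw [mul_add, ← mul_assoc, ← mul_assoc, h1, h2]
  have h3 : 1 ≤ Real.exp 2 := Real.one_le_exp (by norm_num)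
  have h4 : Real.exp t ≤ Real.exp t * Real.exp 2 :=
    le_mul_of_one_le_right (Real.exp_pos t).le h3
  have h5 := mul_le_mul_of_nonneg_right h4
    (sq_nonneg ((p : ℝ) * Real.cos (θ / 2) + q * Real.sin (θ / 2)))
  linarith

/-- a short vector for one `t` -/
private theorem short_of_not (rrb : St_RRB) (frm : St_FRM) {ε : ℝ} {t θ : ℝ} (ht : 0 ≤ t)
    (h : circleMap 0 (rr t) θ ∉ Thk ε) : ∃ p q : ℤ, (p, q) ≠ (0, 0) ∧ nj t θ p q < ε ^ 2 := by
  obtain ⟨r0, r1, -⟩ := rrb
  have h0 := r0 t ht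
  have h1 := r1 t
  have hn : ‖circleMap 0 (rr t) θ‖ = rr t := by rw [norm_circleMap_zero, abs_of_nonneg h0]
  have h2 : ∃ p q : ℤ, (p, q) ≠ (0, 0) ∧
      ‖gi p q + circleMap 0 (rr t) θ * conj (gi p q)‖ ^ 2 < ε ^ 2 * (1 - rr t ^ 2) := by
    by_contra hcon
    push Not at hcon
    apply h
    refine ⟨by rw [hn]; exact h1, fun p q hpq => ?_⟩
    rw [hn]
    exact hcon p q hpq
  obtain ⟨p, q, hpq, h3⟩ := h2
  refine ⟨p, q, hpq, ?_⟩
  rw [frm.1] at h3
  have h4 : 0 < 1 - rr t ^ 2 := by nlinarith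
  have h5 : (1 - rr t ^ 2) * nj t θ p q < (1 - rr t ^ 2) * ε ^ 2 := by
    rw [mul_comm (1 - rr t ^ 2) (ε ^ 2)]
    exact h3
  exact lt_of_mul_lt_mul_left h5 h4.le

theorem cCNA (rrb : St_RRB) (frm : St_FRM) : St_CNA := by
  intro ε hε hε2 a b hab θ hno
  have he4 : ε ^ 2 ≤ 1 / 4 := by nlinarith
  -- a coprime short vector at `j = a`
  obtain ⟨p, q, hpq, hs⟩ : ∃ p q : ℤ, IsCoprime p q ∧ nj a θ p q < ε ^ 2 := by
    obtain ⟨p, q, hne, hs⟩ := short_of_not rrb frm (Nat.cast_nonneg a) (hno a le_rfl hab)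
    have hg : 0 < Int.gcd p q := by
      rw [Nat.pos_iff_ne_zero]
      intro h0
      rw [Int.gcd_eq_zero_iff] at h0
      exact hne (by rw [h0.1, h0.2])
    obtain ⟨p', q', h1, h2, h3⟩ := Int.exists_gcd_one hg
    refine ⟨p', q', Int.isCoprime_iff_gcd_eq_one.2 h1, ?_⟩
    have h4 : ((Int.gcd p q : ℕ) : ℤ) ≠ 0 := by exact_mod_cast hg.ne'
    have h5 := nj_le_mul a θ h4 p' q'
    rw [mul_comm _ p', mul_comm _ q', ← h2, ← h3] at h5
    linarith
  obtain ⟨u, v, huv⟩ := hpq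
  have hne0 : (p, q) ≠ (0, 0) := by
    intro h
    have h1 : p = 0 := congrArg Prod.fst h
    have h2 : q = 0 := congrArg Prod.snd h
    rw [h1, h2] at huv
    simp at huv
  -- propagation
  have hall : ∀ j : ℕ, a ≤ j → j ≤ b → nj j θ p q < ε ^ 2 := by
    intro j haj
    induction j, haj using Nat.le_induction with
    | base => intro _; exact hs
    | succ j haj ih =>
      intro hjb
      have ih' := ih (by omega)
      obtain ⟨p', q', hne, hs'⟩ := short_of_not rrb frm (Nat.cast_nonneg (j + 1))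
        (hno (j + 1) (by omega) hjb)
      have hc : ((j + 1 : ℕ) : ℝ) = (j : ℝ) + 1 := by push_cast; ring
      have h1 : nj j θ p' q' < Real.exp 1 * ε ^ 2 := by
        have h2 := nj_succ j θ p' q'
        rw [← hc] at h2
        exact lt_of_le_of_lt h2 (mul_lt_mul_of_pos_left hs' (Real.exp_pos 1))
      have h3 : nj j θ p q * nj j θ p' q' < 1 := by
        have hexp : Real.exp 1 < 3 := lt_trans Real.exp_one_lt_d9 (by norm_num)
        have h4 := nj_nonneg j θ p q
        have h5 := nj_nonneg j θ p' q'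
        have h6 : Real.exp 1 * ε ^ 2 ≤ 3 / 4 := by nlinarith [Real.exp_pos 1, sq_nonneg ε]
        nlinarith
      have hdet : p * q' - q * p' = 0 := by
        by_contra hcon
        have h4 := frm.2 j θ p q p' q' hcon
        exact absurd h3 (not_lt.2 h4)
      have hk1 : (u * p' + v * q') * p = p' := by linear_combination p' * huv + v * hdet
      have hk2 : (u * p' + v * q') * q = q' := by linear_combination q' * huv - u * hdet
      have hk0 : u * p' + v * q' ≠ 0 := by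
        intro h0
        rw [h0, zero_mul] at hk1 hk2
        exact hne (by rw [← hk1, ← hk2])
      have h7 := nj_le_mul ((j + 1 : ℕ) : ℝ) θ hk0 p q
      rw [hk1, hk2] at h7
      linarith
  have hb := hall b hab le_rfl
  have ha := hall a le_rfl hab
  refine ⟨p, q, hne0, ?_, ?_⟩
  · have h1 : ((p : ℝ) * Real.cos (θ / 2) + q * Real.sin (θ / 2)) ^ 2 +
        (q * Real.cos (θ / 2) - p * Real.sin (θ / 2)) ^ 2 = (p : ℝ) ^ 2 + (q : ℝ) ^ 2 := by
      have := Real.sin_sq_add_cos_sq (θ / 2)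
      linear_combination ((p : ℝ) ^ 2 + (q : ℝ) ^ 2) * this
    have h2 : Real.exp (-(a : ℝ)) ≤ Real.exp a := Real.exp_le_exp.2 (by
      have : (0 : ℝ) ≤ a := Nat.cast_nonneg a
      linarith)
    have h3 : Real.exp (-(a : ℝ)) * ((p : ℝ) ^ 2 + (q : ℝ) ^ 2) ≤ nj a θ p q := by
      rw [← h1, mul_add]
      unfold nj
      have := mul_le_mul_of_nonneg_right h2
        (sq_nonneg ((p : ℝ) * Real.cos (θ / 2) + q * Real.sin (θ / 2)))
      linarith
    have h4 : Real.exp (-(a : ℝ)) * ((p : ℝ) ^ 2 + (q : ℝ) ^ 2) ≤ 1 := by linarith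
    have h5 : Real.exp a * Real.exp (-(a : ℝ)) = 1 := by rw [← Real.exp_add]; simp
    calc (p : ℝ) ^ 2 + (q : ℝ) ^ 2
        = Real.exp a * (Real.exp (-(a : ℝ)) * ((p : ℝ) ^ 2 + (q : ℝ) ^ 2)) := by
          rw [← mul_assoc, h5, one_mul]
      _ ≤ Real.exp a * 1 := mul_le_mul_of_nonneg_left h4 (Real.exp_pos _).le
      _ = Real.exp a := mul_one _
  · have h1 : Real.exp b * ((p : ℝ) * Real.cos (θ / 2) + q * Real.sin (θ / 2)) ^ 2 ≤
        nj b θ p q := by
      unfold nj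
      have : 0 ≤ Real.exp (-(b : ℝ)) * (q * Real.cos (θ / 2) - p * Real.sin (θ / 2)) ^ 2 := by
        positivity
      linarith
    have h2 : (Real.exp (-(b : ℝ) / 2) / 2) ^ 2 * Real.exp b = 1 / 4 := by
      rw [div_pow, ← Real.exp_nat_mul]
      have h3 : Real.exp (((2 : ℕ) : ℝ) * (-(b : ℝ) / 2)) * Real.exp b = 1 := by
        rw [← Real.exp_add]
        have : ((2 : ℕ) : ℝ) * (-(b : ℝ) / 2) + b = 0 := by push_cast; ring
        rw [this, Real.exp_zero]
      linear_combination h3 / 4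
    apply abs_le_of_sq_le_sq _ (by positivity)
    have h3 : Real.exp b * ((p : ℝ) * Real.cos (θ / 2) + q * Real.sin (θ / 2)) ^ 2 ≤
        Real.exp b * (Real.exp (-(b : ℝ) / 2) / 2) ^ 2 := by
      rw [mul_comm (Real.exp b) ((Real.exp (-(b : ℝ) / 2) / 2) ^ 2), h2]
      linarith
    exact le_of_mul_le_mul_left h3 (Real.exp_pos _)

end Pool.Agent.Helper32.QC
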