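import Pool.Agent.Helper69.QC.St

/-!
# Project QD, part C: module CNB (measure of a strip of angles)
-/

open Complex MeasureTheory Set Filter Topology Metric
open scoped Real ComplexConjugate

namespace Pool.Agent.Helper32.QC

open Pool.Agent.Helper69.QC

private theorem cnb_sin {y : ℝ} (hy : |y| ≤ π / 2) : 2 / π * |y| ≤ |Real.sin y| := by
  rcases le_total 0 y with h | h
  · rw [abs_of_nonneg h] at hy ⊢
    exact (Real.mul_le_sin h hy).trans (le_abs_self _)
  · rw [abs_of_nonpos h] at hy ⊢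
    have h1 := Real.mul_le_sin (neg_nonneg.2 h) hy
    rw [Real.sin_neg] at h1
    exact h1.trans (neg_le_abs _)

private theorem cnb_real {A : Set ℝ} (hA : MeasurableSet A) {a b : ℝ} (hab : a ≤ b) :
    ∫ θ in a..b, A.indicator (1 : ℝ → ℝ) θ = volume.real (A ∩ Ioc a b) := by
  rw [intervalIntegral.integral_of_le hab, integral_indicator_one hA, measureReal_restrict_apply hA]

theorem cCNB : St_CNB := by
  intro p q hpq δ hδ
  set z : ℂ := ⟨p, q⟩ with hz
  have hm : 0 < max |(p : ℝ)| |(q : ℝ)| := by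
    rcases not_and_or.1 (fun h : p = 0 ∧ q = 0 => hpq (by rw [h.1, h.2])) with h | h
    · exact lt_of_lt_of_le (abs_pos.2 (by exact_mod_cast h)) (le_max_left _ _)
    · exact lt_of_lt_of_le (abs_pos.2 (by exact_mod_cast h)) (le_max_right _ _)
  have hmz : max |(p : ℝ)| |(q : ℝ)| ≤ ‖z‖ :=
    max_le (Complex.abs_re_le_norm z) (Complex.abs_im_le_norm z)
  have hz0 : 0 < ‖z‖ := lt_of_lt_of_le hm hmz
  have hp : (p : ℝ) = ‖z‖ * Real.cos z.arg := (Complex.norm_mul_cos_arg z).symm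
  have hq : (q : ℝ) = ‖z‖ * Real.sin z.arg := (Complex.norm_mul_sin_arg z).symm
  have hform : ∀ θ : ℝ, (p : ℝ) * Real.cos (θ / 2) + q * Real.sin (θ / 2) =
      ‖z‖ * Real.cos (θ / 2 - z.arg) := by
    intro θ
    rw [Real.cos_sub, hp, hq]
    ring
  set A : Set ℝ := {θ : ℝ | |(p : ℝ) * Real.cos (θ / 2) + q * Real.sin (θ / 2)| ≤ δ} with hAdef
  have hAc : IsClosed A := isClosed_le (by fun_prop) continuous_const
  have hA : MeasurableSet A := hAc.measurableSet
  have hAp : ∀ θ, θ + 2 * π ∈ A ↔ θ ∈ A := by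
    intro θ
    simp only [hAdef, mem_ofPred_eq, hform]
    have h1 : (θ + 2 * π) / 2 - z.arg = (θ / 2 - z.arg) + π := by ring
    rw [h1, Real.cos_add_pi, mul_neg, abs_neg]
  have hper : Function.Periodic (A.indicator (1 : ℝ → ℝ)) (2 * π) := by
    intro θ
    by_cases h : θ ∈ A
    · rw [indicator_of_mem h, indicator_of_mem ((hAp θ).2 h)]
      rfl
    · rw [indicator_of_notMem h, indicator_of_notMem (fun h' => h ((hAp θ).1 h'))]
  have h2pi : (0 : ℝ) < 2 * π := by positivity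
  have e1 : volume.real (A ∩ Ioc 0 (2 * π)) =
      volume.real (A ∩ Ioc (2 * z.arg) (2 * z.arg + 2 * π)) := by
    rw [← cnb_real hA h2pi.le, ← cnb_real hA (by linarith)]
    have h1 := hper.intervalIntegral_add_eq 0 (2 * z.arg)
    rw [zero_add] at h1
    exact h1
  have hfin : ∀ a b : ℝ, volume (A ∩ Ioc a b) ≠ ⊤ := fun a b =>
    ne_top_of_le_ne_top (by simp : volume (Ioc a b) ≠ ⊤) (measure_mono inter_subset_right)
  have e2 : volume (A ∩ Ioc 0 (2 * π)) = volume (A ∩ Ioc (2 * z.arg) (2 * z.arg + 2 * π)) := by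
    rw [Measure.real, Measure.real] at e1
    exact (ENNReal.toReal_eq_toReal_iff' (hfin _ _) (hfin _ _)).1 e1
  have e3 : volume {θ : ℝ | θ ∈ Icc 0 (2 * π) ∧
      |(p : ℝ) * Real.cos (θ / 2) + q * Real.sin (θ / 2)| ≤ δ} = volume (A ∩ Ioc 0 (2 * π)) := by
    apply measure_congr
    have h1 : (Icc (0 : ℝ) (2 * π) : Set ℝ) =ᵐ[volume] Ioc 0 (2 * π) := Ioc_ae_eq_Icc.symm
    have h2 : (A ∩ Icc (0 : ℝ) (2 * π) : Set ℝ) =ᵐ[volume] (A ∩ Ioc 0 (2 * π) : Set ℝ) :=
      (ae_eq_refl A).inter h1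
    have h3 : {θ : ℝ | θ ∈ Icc 0 (2 * π) ∧
      |(p : ℝ) * Real.cos (θ / 2) + q * Real.sin (θ / 2)| ≤ δ} = A ∩ Icc 0 (2 * π) := by
      ext θ
      exact and_comm
    rw [h3]
    exact h2
  rw [e3, e2]
  have hsub : A ∩ Ioc (2 * z.arg) (2 * z.arg + 2 * π) ⊆
      Icc (2 * z.arg + π - π * δ / ‖z‖) (2 * z.arg + π + π * δ / ‖z‖) := by
    rintro θ ⟨h1, h2⟩
    have h3 : |‖z‖ * Real.cos (θ / 2 - z.arg)| ≤ δ := by
      rw [← hform]
      exact h1
    have h4 : Real.cos (θ / 2 - z.arg) = Real.sin (π / 2 - (θ / 2 - z.arg)) := by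
      rw [Real.sin_pi_div_two_sub]
    have h5 : |π / 2 - (θ / 2 - z.arg)| ≤ π / 2 := by
      rw [abs_le]
      constructor <;> linarith [h2.1, h2.2]
    have h6 := cnb_sin h5
    rw [← h4] at h6
    rw [abs_mul, abs_of_pos hz0] at h3
    have h7 : |π / 2 - (θ / 2 - z.arg)| ≤ π * δ / (2 * ‖z‖) := by
      rw [le_div_iff₀ (by positivity)]
      have h8 : ‖z‖ * (2 / π * |π / 2 - (θ / 2 - z.arg)|) ≤ δ :=
        (mul_le_mul_of_nonneg_left h6 hz0.le).trans h3
      have h9 : π * (‖z‖ * (2 / π * |π / 2 - (θ / 2 - z.arg)|)) ≤ π * δ :=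
        mul_le_mul_of_nonneg_left h8 Real.pi_pos.le
      have h10 : π * (‖z‖ * (2 / π * |π / 2 - (θ / 2 - z.arg)|)) =
          |π / 2 - (θ / 2 - z.arg)| * (2 * ‖z‖) := by
        field_simp
      rw [h10] at h9
      exact h9
    have h11 : π * δ / (2 * ‖z‖) = (π * δ / ‖z‖) / 2 := by
      field_simp
    rw [h11, abs_le] at h7
    constructor <;> linarith [h7.1, h7.2]
  refine (measure_mono hsub).trans ?_
  rw [Real.volume_Icc]
  apply ENNReal.ofReal_le_ofReal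
  have h1 : 2 * z.arg + π + π * δ / ‖z‖ - (2 * z.arg + π - π * δ / ‖z‖) = 2 * π * δ / ‖z‖ := by ring
  rw [h1]
  exact div_le_div_of_nonneg_left (by positivity) hm hmz

end Pool.Agent.Helper32.QC
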