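import Pool.Agent.Helper69.QC.St

/-!
# Project QD, part C: module TRN (transport)
-/

open Complex MeasureTheory Set Filter Topology Metric
open scoped Real ComplexConjugate

namespace Pool.Agent.Helper32.QC

open Pool.Agent.Helper69.QC

private theorem trn_norm {r : ℝ} (hr : 0 ≤ r) (θ : ℝ) : ‖circleMap 0 r θ‖ = r := by
  rw [norm_circleMap_zero, abs_of_nonneg hr]

private theorem trn_shift {g : ℝ → ℝ} (hg : ∀ θ, g (θ + 2 * π) = g θ) (h : ℝ) :
    ∫ θ in (0 : ℝ)..(2 * π), g (θ + h) = ∫ θ in (0 : ℝ)..(2 * π), g θ := by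
  rw [intervalIntegral.integral_comp_add_right (fun t => g t) h]
  have hp : Function.Periodic g (2 * π) := hg
  have h1 := hp.intervalIntegral_add_eq (0 + h) 0
  rw [zero_add] at h1
  rw [show (0 : ℝ) + 2 * π = 2 * π by ring] at h1
  rw [zero_add, add_comm (2 * π) h]
  exact h1

private theorem trn_box {f : ℝ → ℝ} (hf : Continuous f) (s b : ℝ) {A : Set ℝ} (hA : MeasurableSet A) :
    Integrable (fun p : ℝ × ℝ => A.indicator (fun θ => f (θ + p.1)) p.2)
      ((volume.restrict (Ioc (-s) s)).prod (volume.restrict (Ioc 0 b))) := by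
  have h1 : Integrable (fun p : ℝ × ℝ => f (p.2 + p.1))
      ((volume.restrict (Ioc (-s) s)).prod (volume.restrict (Ioc 0 b))) := by
    rw [Measure.prod_restrict, ← Measure.volume_eq_prod]
    have h2 : IntegrableOn (fun p : ℝ × ℝ => f (p.2 + p.1)) (Icc (-s) s ×ˢ Icc 0 b) :=
      (hf.comp (by fun_prop : Continuous fun p : ℝ × ℝ => p.2 + p.1)).continuousOn.integrableOn_compact
        (isCompact_Icc.prod isCompact_Icc)
    exact h2.mono_set (prod_mono Ioc_subset_Icc_self Ioc_subset_Icc_self)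
  have h3 := h1.indicator (s := {p : ℝ × ℝ | p.2 ∈ A}) (measurable_snd hA)
  refine h3.congr (Eventually.of_forall fun p => ?_)
  show _ = A.indicator (fun θ => f (θ + p.1)) p.2
  by_cases hp : p.2 ∈ A
  · rw [indicator_of_mem (show p ∈ {p : ℝ × ℝ | p.2 ∈ A} from hp), indicator_of_mem hp]
  · rw [indicator_of_notMem (show p ∉ {p : ℝ × ℝ | p.2 ∈ A} from hp), indicator_of_notMem hp]

theorem cTRN (rrb : St_RRB) (har : St_HAR) (stb : St_STB) (sha : St_SHA) : St_TRN := by
  intro E hE ε hε D t hD hDt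
  obtain ⟨r0, r1, -⟩ := rrb
  have hrD0 : 0 ≤ rr D := r0 D hD
  have hrD1 : rr D < 1 := r1 D
  have hrt0 : 0 ≤ rr t := r0 t (by linarith)
  have hrt1 : rr t < 1 := r1 t
  have hspos : 0 < 1 - rr D := by linarith
  have hpi : (0 : ℝ) < 2 * π := by positivity
  have hcE := (har E hE).1
  have hball : ∀ r : ℝ, 0 ≤ r → r < 1 → ∀ θ, circleMap 0 r θ ∈ ball (0 : ℂ) 1 := by
    intro r hr0 hr1 θ
    rw [mem_ball_zero_iff, trn_norm hr0]
    exact hr1
  have hf : Continuous fun θ => E (circleMap 0 (rr t) θ) :=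
    hcE.comp_continuous (continuous_circleMap 0 (rr t)) (hball _ hrt0 hrt1)
  have hg : Continuous fun θ => E (circleMap 0 (rr D) θ) :=
    hcE.comp_continuous (continuous_circleMap 0 (rr D)) (hball _ hrD0 hrD1)
  set f : ℝ → ℝ := fun θ => E (circleMap 0 (rr t) θ) with hfdef
  set g : ℝ → ℝ := fun θ => E (circleMap 0 (rr D) θ) with hgdef
  set A : Set ℝ := {θ : ℝ | circleMap 0 (rr D) θ ∈ Thk ε} with hAdef
  set A' : Set ℝ := {θ : ℝ | circleMap 0 (rr D) θ ∈ Thk (ε / 2)} with hA'def
  have hA : MeasurableSet A := (continuous_circleMap 0 (rr D)).measurable (stb.2 ε)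
  have hA' : MeasurableSet A' := (continuous_circleMap 0 (rr D)).measurable (stb.2 (ε / 2))
  have hf0 : ∀ θ, 0 ≤ f θ := fun θ => hE.1 _ (hball _ hrt0 hrt1 θ)
  have hper : ∀ θ, A.indicator f (θ + 2 * π) = A.indicator f θ := by
    intro θ
    have e1 : f (θ + 2 * π) = f θ := by
      simp only [hfdef, periodic_circleMap 0 (rr t) θ]
    by_cases h : θ ∈ A
    · have h' : θ + 2 * π ∈ A := by
        simp only [hAdef, mem_ofPred_eq, periodic_circleMap 0 (rr D) θ] at h ⊢
        exact h
      rw [indicator_of_mem h, indicator_of_mem h', e1]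
    · have h' : θ + 2 * π ∉ A := by
        simp only [hAdef, mem_ofPred_eq, periodic_circleMap 0 (rr D) θ] at h ⊢
        exact h
      rw [indicator_of_notMem h, indicator_of_notMem h']
  -- the pointwise comparison
  have hcmp : ∀ h ∈ Ioc (-(1 - rr D)) (1 - rr D), ∀ θ,
      A.indicator f (θ + h) ≤ A'.indicator (fun θ => f (θ + h)) θ := by
    intro h hh θ
    by_cases hθ : θ + h ∈ A
    · have h1 : θ ∈ A' := by
        have h2 := stb.1 ε hε (circleMap 0 (rr D) (θ + h)) hθ (-h)
          (by rw [trn_norm hrD0, abs_neg, abs_le]; exact ⟨hh.1.le, hh.2⟩)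
        have h3 : circleMap 0 (rr D) (θ + h) * Complex.exp (((-h : ℝ) : ℂ) * I) =
            circleMap 0 (rr D) θ := by
          simp only [circleMap, zero_add]
          rw [mul_assoc, ← Complex.exp_add]
          congr 2
          push_cast
          ring
        rw [h3] at h2
        exact h2
      rw [indicator_of_mem hθ, indicator_of_mem h1]
    · rw [indicator_of_notMem hθ]
      exact indicator_nonneg (fun θ _ => hf0 _) θ
  have hbox := trn_box hf (1 - rr D) (2 * π) hA'
  have hI1 : IntegrableOn (fun h => ∫ θ in Ioc 0 (2 * π), A'.indicator (fun θ => f (θ + h)) θ)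
      (Ioc (-(1 - rr D)) (1 - rr D)) := hbox.integral_prod_left
  have hI2 : IntegrableOn (fun θ => ∫ h in Ioc (-(1 - rr D)) (1 - rr D),
      A'.indicator (fun θ => f (θ + h)) θ) (Ioc 0 (2 * π)) := hbox.integral_prod_right
  have hswap : ∫ h in Ioc (-(1 - rr D)) (1 - rr D), ∫ θ in Ioc 0 (2 * π),
      A'.indicator (fun θ => f (θ + h)) θ =
      ∫ θ in Ioc 0 (2 * π), ∫ h in Ioc (-(1 - rr D)) (1 - rr D),
        A'.indicator (fun θ => f (θ + h)) θ := integral_integral_swap hbox
  have hIA : ∀ h : ℝ, IntegrableOn (fun θ => A.indicator f (θ + h)) (Ioc 0 (2 * π)) := by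
    intro h
    have e : (fun θ => A.indicator f (θ + h)) =
        ((fun θ => θ + h) ⁻¹' A).indicator (fun θ => f (θ + h)) := by
      funext θ
      by_cases hθ : θ + h ∈ A
      · rw [indicator_of_mem hθ, indicator_of_mem (show θ ∈ (fun θ => θ + h) ⁻¹' A from hθ)]
      · rw [indicator_of_notMem hθ, indicator_of_notMem (show θ ∉ (fun θ => θ + h) ⁻¹' A from hθ)]
    rw [e]
    have hc : Continuous fun θ => f (θ + h) := hf.comp (continuous_add_const h)
    exact ((hc.integrableOn_Icc (a := 0) (b := 2 * π)).mono_set Ioc_subset_Icc_self).indicator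
      ((measurable_add_const h) hA)
  have hIA' : ∀ h : ℝ, IntegrableOn (fun θ => A'.indicator (fun θ => f (θ + h)) θ)
      (Ioc 0 (2 * π)) := by
    intro h
    have hc : Continuous fun θ => f (θ + h) := hf.comp (continuous_add_const h)
    exact ((hc.integrableOn_Icc (a := 0) (b := 2 * π)).mono_set Ioc_subset_Icc_self).indicator hA'
  -- step 1
  have step1 : 2 * (1 - rr D) * ∫ θ in (0 : ℝ)..(2 * π), A.indicator f θ ≤
      ∫ h in Ioc (-(1 - rr D)) (1 - rr D), ∫ θ in Ioc 0 (2 * π),
        A'.indicator (fun θ => f (θ + h)) θ := by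
    have e1 : 2 * (1 - rr D) * ∫ θ in (0 : ℝ)..(2 * π), A.indicator f θ =
        ∫ h in Ioc (-(1 - rr D)) (1 - rr D), ∫ θ in (0 : ℝ)..(2 * π), A.indicator f θ := by
      rw [setIntegral_const, smul_eq_mul, Real.volume_real_Ioc_of_le (by linarith)]
      ring
    rw [e1]
    apply setIntegral_mono_on (integrableOn_const (by simp)) hI1 measurableSet_Ioc
    intro h hh
    rw [← trn_shift hper h, intervalIntegral.integral_of_le hpi.le]
    exact setIntegral_mono (hIA h) (hIA' h) fun θ => hcmp h hh θ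
  -- step 2
  have step2 : ∫ θ in Ioc 0 (2 * π), ∫ h in Ioc (-(1 - rr D)) (1 - rr D),
        A'.indicator (fun θ => f (θ + h)) θ ≤
      ∫ θ in Ioc 0 (2 * π), 200 * (1 - rr D) * (Thk (ε / 2)).indicator E (circleMap 0 (rr D) θ) := by
    have e2 : ∀ θ, (Thk (ε / 2)).indicator E (circleMap 0 (rr D) θ) = A'.indicator g θ := by
      intro θ
      by_cases hθ : circleMap 0 (rr D) θ ∈ Thk (ε / 2)
      · rw [indicator_of_mem hθ, indicator_of_mem (show θ ∈ A' from hθ)]
      · rw [indicator_of_notMem hθ, indicator_of_notMem (show θ ∉ A' from hθ)]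
    apply setIntegral_mono hI2
    · simp only [e2]
      exact (((hg.integrableOn_Icc (a := 0) (b := 2 * π)).mono_set
        Ioc_subset_Icc_self).indicator hA').const_mul _
    · intro θ
      simp only [e2]
      by_cases hθ : θ ∈ A'
      · simp only [indicator_of_mem hθ]
        have h1 := sha E hE D t hD hDt θ
        rw [intervalIntegral.integral_of_le (by linarith)] at h1
        exact h1
      · simp only [indicator_of_notMem hθ, integral_zero, mul_zero, le_refl]
  have step3 : ∫ θ in Ioc 0 (2 * π), 200 * (1 - rr D) *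
      (Thk (ε / 2)).indicator E (circleMap 0 (rr D) θ) =
      200 * (1 - rr D) * ∫ θ in (0 : ℝ)..(2 * π),
        (Thk (ε / 2)).indicator E (circleMap 0 (rr D) θ) := by
    rw [intervalIntegral.integral_of_le hpi.le, integral_const_mul]
  have h7 : 2 * (1 - rr D) * ∫ θ in (0 : ℝ)..(2 * π), A.indicator f θ ≤
      2 * (1 - rr D) * (100 * ∫ θ in (0 : ℝ)..(2 * π),
        (Thk (ε / 2)).indicator E (circleMap 0 (rr D) θ)) := by
    calc _ ≤ _ := step1
      _ = _ := hswap
      _ ≤ _ := step2
      _ = _ := step3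
      _ = _ := by ring
  exact le_of_mul_le_mul_left h7 (by linarith)

end Pool.Agent.Helper32.QC
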